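import Pool.Agent.Run7.h482.SG.Final

set_option autoImplicit false

/-!
# MP_8f84d8_an: `L¹(ℝ)` has no analytic semigroup bounded on the half-disc

Outline of the proof.  Let `(a^t)` be an analytic semigroup in `L¹(ℝ)` with `‖a^t‖ ≤ M` on the
half-disc, and let `A(t, ξ)` be its Fourier transform.  On the open set `U = {A(1, ·) ≠ 0}` one has
`A(t, ξ) = exp(-t φ(ξ))`.  For real `|y| ≤ 1/2` the weak limit of `a^(x+iy)` as `x → 0+` is a finite
complex measure, so `exp(-i y φ)` agrees on `U` with the Fourier transform of a finite measure.  As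
`Re φ → ∞` at the boundary of `U`, an averaging over `y` shows that `U` has no boundary points, so
`U = ℝ`.  Put `Φ(ξ) = φ(ξ) + φ(-ξ)`.  The almost periodic part of `exp(-i b Φ)` (the transform of
the discrete part of the measure) is invertible and even, so by Bohr's argument its logarithm `κ` is
bounded, and the almost periodic part of `exp(-i y Φ)` is, up to a unimodular factor,
`exp((y/b) κ)` for rational `y/b`.  Hence the mean value of `exp(-i y Φ)` has modulus at least `1/2`
for a dense set of small `y`.  It is a pointwise limit of continuous functions of `y` whose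
integrals over intervals tend to `0` since `Re Φ → ∞`; this contradicts Baire's theorem.
-/

open MeasureTheory

namespace Pool.Agent.Results.MP_8f84d8_an.NoHalfDiscSemigroup

/-- There is no analytic semigroup in the convolution algebra `L¹(ℝ)` which is bounded on the
half-disc `{t : Re t > 0, |t| ≤ 1}`. -/
theorem result :
    ¬ ∃ a : ℂ → Lp ℂ 1 (volume : Measure ℝ),
      DifferentiableOn ℂ a {t | 0 < t.re} ∧
      (∀ s t : ℂ, 0 < s.re → 0 < t.re →
        (a (s + t) : ℝ → ℂ) =ᵐ[volume] fun x => ∫ y, a s (x - y) * a t y) ∧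
      (∃ t : ℂ, 0 < t.re ∧ a t ≠ 0) ∧
      (∃ M : ℝ, ∀ t : ℂ, 0 < t.re → ‖t‖ ≤ 1 → ‖a t‖ ≤ M) := by
  rintro ⟨a, ha, hmul, hne, M, hM⟩
  exact Run7.h482.SG.no_bounded_semigroup a ha hmul hne M hM

end Pool.Agent.Results.MP_8f84d8_an.NoHalfDiscSemigroup
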